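import Pool.Agent.MVO.StmtsE

/-!
# Squad MVO, row BUL (helper67): bubble sort for lists with repetitions
-/

namespace Pool.Agent.MVO.H67

open Pool.Agent.Helper14_MV Pool.Agent.Helper2_MV Pool.Agent.MVO

theorem exchL_cons {l m m' : List ℕ} (z : ℕ) (h : ExchL l m m') :
    ExchL (z :: l) (z :: m) (z :: m') := by
  obtain ⟨A, B, x, y, hxy, h1, h2, P, Q, h3, h4, h5⟩ := h
  refine ⟨z :: A, B, x, y, hxy, by rw [h1]; rfl, by rw [h2]; rfl, z :: P, Q, by rw [h3]; rfl,
    ?_, ?_⟩
  · rw [List.count_cons, List.count_cons, h4]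
  · rw [List.count_cons, List.count_cons]
    exact Nat.add_le_add_right h5 _

theorem exchL_front (z : ℕ) (l : List ℕ) : ∀ (A B : List ℕ), z ∉ A →
    Relation.ReflTransGen (ExchL (z :: l)) (A ++ z :: B) (z :: (A ++ B)) := by
  intro A
  induction A using List.reverseRecOn with
  | nil => intro B _; exact Relation.ReflTransGen.refl
  | append_singleton A a ih =>
    intro B hz
    have hzA : z ∉ A := fun h => hz (List.mem_append_left _ h)
    have hza : a ≠ z := fun h => hz (by rw [h]; simp)
    have h1 := ih (a :: B) hzA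
    have h2 : ExchL (z :: l) (A ++ [a] ++ z :: B) (A ++ z :: a :: B) :=
      ⟨A, B, a, z, hza, by simp, rfl, [], l, rfl, by simp [List.count_eq_zero_of_not_mem hzA],
        by simp⟩
    have h3 : z :: (A ++ [a] ++ B) = z :: (A ++ a :: B) := by simp
    rw [h3]
    exact Relation.ReflTransGen.head h2 h1

theorem bul : BulStmt := by
  intro l l'
  induction l' generalizing l with
  | nil =>
    intro h
    rw [h.eq_nil]
  | cons z l' ih =>
    intro h
    have hz : z ∈ l := h.mem_iff.2 (by simp)
    obtain ⟨A, B, hl, hzA⟩ := List.eq_append_cons_of_mem hz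
    subst hl
    have hp : (A ++ B).Perm l' := List.Perm.cons_inv (List.perm_middle.symm.trans h)
    exact (exchL_front z l' A B hzA).trans
      (Relation.ReflTransGen.lift (fun m => z :: m) (fun _ _ h => exchL_cons z h) _ _ (ih _ hp))

end Pool.Agent.MVO.H67
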