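import Pool.Agent.MVO.StmtsV
import Pool.Agent.Helper35_MVO.FAA

/-!
# Squad MVO, row FV1 (helper67): the simple rules of the calculus in class Va
-/

namespace Pool.Agent.MVO.H67

open Pool.Agent.Helper14_MV Pool.Agent.Helper2_MV Pool.Agent.MVO
open Pool.Agent.MVO.H35 (f2 f5 flp_same flp_ne)

/-- (V0) -/
theorem v0 (hE : ExvStmt) {ρ : FIC} (hV : MVD.Ve ρ) {k : ℕ} {a b : ℕ → ℕ} {i : ℕ}
    (ha : 2 ≤ deg k a) (hb : 2 ≤ deg k b) (hi : i ≤ k) (h1 : ¬ VR k a b i) : Bt ρ k a b i := by
  have key : ∀ e : ℕ → Bool, e i = false → RR ρ (w2 k a b e) (w2 k a b (flp e i)) := by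
    intro e he
    obtain ⟨n, hn⟩ : ∃ n : ℕ → ℕ → ℕ, n = fun j c => if c = 0 then a j else if c = 1 then b j
      else 0 := ⟨_, rfl⟩
    have n0 : ∀ j, n j 0 = a j := by intro j; rw [hn]; simp
    have n1 : ∀ j, n j 1 = b j := by intro j; rw [hn]; simp
    obtain ⟨D, hD⟩ : ∃ D : (ℕ → Bool) → ℕ → List ℕ, D = fun e j => if e j then [1, 0] else [0, 1] :=
      ⟨_, rfl⟩
    have hDt : ∀ e j, e j = true → D e j = [1, 0] := by intro e j h; rw [hD]; simp [h]
    have hDf : ∀ e j, e j = false → D e j = [0, 1] := by intro e j h; rw [hD]; simp [h]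
    have hw : ∀ e, gw k n (D e) = w2 k a b e := by
      intro e
      unfold gw w2
      apply asm_congr
      intro j hj
      unfold gb bl
      cases hej : e j
      · rw [hDf e j hej]
        simp [n0, n1]
      · rw [hDt e j hej]
        simp [n0, n1]
    have hG : GData k [0, 1] n (D e) := by
      refine ⟨by simp, ?_, ?_, ?_⟩
      · intro c hc
        simp only [List.mem_cons, List.not_mem_nil, or_false] at hc
        intro hs
        have := hs.1
        omega
      · intro c hc
        simp only [List.mem_cons, List.not_mem_nil, or_false] at hc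
        rcases hc with hc | hc
        · subst hc
          simp only [n0]
          exact ha
        · subst hc
          simp only [n1]
          exact hb
      · intro j
        cases hej : e j
        · rw [hDf e j hej]
        · rw [hDt e j hej]
          exact List.Perm.swap _ _ _
    have h3 := hE ρ hV k [0, 1] n (D e) hG i hi [] [] 0 1 (by rw [hDf e i he]; rfl)
      (by simp only [n0, n1]; exact h1)
    have h4 : gw k n (Function.update (D e) i ([] ++ 1 :: 0 :: [])) = gw k n (D (flp e i)) := by
      unfold gw
      apply asm_congr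
      intro j hj
      by_cases hji : j = i
      · subst hji
        rw [Function.update_self, hDt (flp e j) j (by rw [flp_same, he]; rfl)]
        rfl
      · rw [Function.update_of_ne hji]
        cases hej : e j
        · rw [hDf e j hej, hDf (flp e i) j (by rw [flp_ne hji]; exact hej)]
        · rw [hDt e j hej, hDt (flp e i) j (by rw [flp_ne hji]; exact hej)]
    rw [h4, hw, hw] at h3
    exact h3
  intro e
  cases he : e i
  · exact key e he
  · have h3 := key (flp e i) (by rw [flp_same, he]; rfl)
    have h4 : flp (flp e i) i = e := by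
      funext j
      unfold flp
      split_ifs <;> simp
    rw [h4] at h3
    exact RR.symm h3

theorem fv1 (hE : ExvStmt) : Fv1Stmt := by
  intro ρ hV
  exact ⟨fun k a b i ha hb hi h1 => v0 hE hV ha hb hi h1, fun k a a' b i h hB => f2 h hB,
    fun k a b i hB => f5 hB⟩

end Pool.Agent.MVO.H67
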