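import Pool.Agent.Helper67_MVO.TCBb

/-! Squad MVO, row TCB (helper67): tightness of class c1 over `O2`. -/

set_option autoImplicit false

namespace Pool.Agent.MVO.H67

open Pool.Agent.Helper14_MV Pool.Agent.Helper2_MV Pool.Agent.MVO
open Pool.Agent.MVO.H65.TacRow

theorem clC1_mono {β ρ : FIC} (h : β ≤ ρ) (hc : ClC1 β) : ClC1 ρ :=
  ⟨⟨rr_mono h hc.cc.1, fun p q c r x y hm => rr_mono h (hc.cc.2.1 p q c r x y hm),
    fun p q c r x y hm => rr_mono h (hc.cc.2.2 p q c r x y hm)⟩, rr_mono h hc.A⟩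

theorem deg_rv (k : ℕ) (a : ℕ → ℕ) : deg k (fun j => a (k - j)) = deg k a := by
  unfold deg
  have h := Finset.sum_range_reflect a (k + 1)
  rw [← h]
  rfl

theorem fr_rv {k i : ℕ} (hi : i ≤ k) {C b : ℕ → ℕ} (h : FR k (fun j => C (k - j)) b i) :
    FRr k C (fun j => b (k - j)) (k - i) := by
  obtain ⟨h1, h2, h3, h4, h5⟩ := h
  refine ⟨?_, ?_, h3, ?_, ?_⟩
  · intro j hj hij
    have h6 := h1 (k - j) (by omega)
    have e : k - (k - j) = j := by omega
    dsimp only at h6
    rw [e] at h6
    exact h6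
  · intro j hj hij
    have h6 := h2 (k - j) (by omega) (by omega)
    have e : k - (k - j) = j := by omega
    dsimp only at h6
    rw [e] at h6
    exact h6
  · have e : k - (k - i) = i := by omega
    dsimp only
    rw [e]
    exact h4
  · have e : k - (k - i) = i := by omega
    dsimp only
    rw [e]
    exact h5

theorem zr_rv {k i : ℕ} (hi : i ≤ k) {C b : ℕ → ℕ} (h : ZR k (fun j => C (k - j)) b i) :
    ZRr k C (fun j => b (k - j)) (k - i) := by
  obtain ⟨h1, h2, h3, h4⟩ := h
  refine ⟨?_, ?_, h3, ?_⟩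
  · intro j hj
    have h6 := h1 (k - j) (by omega) (by omega)
    have e : k - (k - j) = j := by omega
    dsimp only at h6
    rw [e] at h6
    exact h6
  · intro j hj hij
    have h6 := h2 (k - j) (by omega) (by omega)
    have e : k - (k - j) = j := by omega
    dsimp only at h6
    rw [e] at h6
    exact h6
  · have e : k - (k - i) = i := by omega
    dsimp only
    rw [e]
    exact h4

theorem fr_rv' {k i : ℕ} (hi : i ≤ k) {a b : ℕ → ℕ} (h : FR k a b i) :
    FRr k (fun j => a (k - j)) (fun j => b (k - j)) (k - i) := by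
  obtain ⟨h1, h2, h3, h4, h5⟩ := h
  have e : k - (k - i) = i := by omega
  refine ⟨fun j hj hij => h1 (k - j) (by omega), fun j hj hij => h2 (k - j) (by omega) (by omega),
    ?_, ?_, ?_⟩
  · dsimp only
    rw [e]
    exact h3
  · dsimp only
    rw [e]
    exact h4
  · dsimp only
    rw [e]
    exact h5

theorem zr_rv' {k i : ℕ} (hi : i ≤ k) {a b : ℕ → ℕ} (h : ZR k a b i) :
    ZRr k (fun j => a (k - j)) (fun j => b (k - j)) (k - i) := by
  obtain ⟨h1, h2, h3, h4⟩ := h
  have e : k - (k - i) = i := by omega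
  refine ⟨fun j hj => h1 (k - j) (by omega) (by omega),
    fun j hj hij => h2 (k - j) (by omega) (by omega), ?_, ?_⟩
  · dsimp only
    rw [e]
    exact h3
  · dsimp only
    rw [e]
    exact h4

/-- row TCB -/
theorem tcb (hopf : OpfStmt) (hoca : OcaStmt) (hocr : OcrStmt) (hfcc : FccStmt) : TcbStmt := by
  intro β ρ hle hclρ h2 hcla k a a' hd hdd h1
  by_cases hL : L1 β k a a'
  · exact Or.inl hL
  right
  intro b e hb i hi
  obtain ⟨Rb, hRb, hOb⟩ := hopf (FC.ofFIC β)
  obtain ⟨R, hR, hO⟩ := hopf (FC.ofFIC ρ)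
  have h3b : O3 Rb := hOb h2
  have h3 : O3 R := hO (rr_mono hle h2)
  obtain ⟨C0, C2, C3, _, C4Z, _⟩ := hfcc ρ hclρ
  suffices hgoal : Bt ρ k a b i from hgoal e
  by_cases hFZ : FR k a b i ∨ ZR k a b i
  swap
  · exact C0 k a b i hd hb hi (fun h => hFZ (Or.inl h)) (fun h => hFZ (Or.inr h))
  have hFZ' : FRr k (fun j => a (k - j)) (fun j => b (k - j)) (k - i) ∨
      ZRr k (fun j => a (k - j)) (fun j => b (k - j)) (k - i) := by
    rcases hFZ with h | h
    · exact Or.inl (fr_rv' hi h)
    · exact Or.inr (zr_rv' hi h)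
  -- back and forth
  have back : ∀ {S : FC} {S' : FC}, (∀ k a b, S'.R k a b ↔
      S.R k (fun j => a (k - j)) (fun j => b (k - j))) → ∀ {c C : ℕ → ℕ},
        S'.R k (fun j => c (k - j)) C → S.R k c (fun j => C (k - j)) := by
    intro S S' hS c C h
    refine S.ext ?_ (fun _ _ => rfl) ((hS k _ _).1 h)
    intro j hj
    rw [show k - (k - j) = j by omega]
  have hRR : R.R k (fun j => a (k - j)) (fun j => a' (k - j)) := by
    refine (hR k _ _).2 ((FC.ofFIC ρ).ext ?_ ?_ h1)
    · intro j hj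
      rw [show k - (k - j) = j by omega]
    · intro j hj
      rw [show k - (k - j) = j by omega]
  have hnb : ¬ Rb.R k (fun j => a (k - j)) (fun j => a' (k - j)) := by
    intro h
    apply hL
    have h5 := back hRb h
    refine (FC.ofFIC β).ext (fun _ _ => rfl) ?_ h5
    intro j hj
    rw [show k - (k - j) = j by omega]
  have hddA : deg k (fun j => a (k - j)) = deg k (fun j => a' (k - j)) := by
    rw [deg_rv, deg_rv, hdd]
  have hP : pr k (fun j => a (k - j)) ≠ pr k (fun j => a' (k - j)) :=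
    fun h => hnb (hoca Rb k _ _ h3b hddA h)
  have rule : ∀ C, R.R k (fun j => a (k - j)) C → deg k C = deg k (fun j => a (k - j)) →
      ¬ FRr k C (fun j => b (k - j)) (k - i) → ¬ ZRr k C (fun j => b (k - j)) (k - i) →
        Bt ρ k a b i := by
    intro C hC hdC hnF hnZ
    rw [deg_rv] at hdC
    refine C2 k a (fun j => C (k - j)) b i (back hR hC)
      (C0 k (fun j => C (k - j)) b i ?_ hb hi (fun h => hnF (fr_rv hi h))
        (fun h => hnZ (zr_rv hi h)))
    rw [deg_rv, hdC]
    exact hd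
  have hdA : 2 ≤ deg k (fun j => a (k - j)) := by
    rw [deg_rv]
    exact hd
  have hdB : 2 ≤ deg k (fun j => b (k - j)) := by
    rw [deg_rv]
    exact hb
  have hI : k - i ≤ k := Nat.sub_le _ _
  rcases hFZ' with hF | hZ
  · exact coreF hoca hocr h3 hI hdA hddA hdB hRR hP hF rule
  refine coreZ hoca hocr h3 hI hdA hddA hdB hRR hP hZ rule ?_
  intro c x j hc he hcP hcP' hdc hx hxx hIx hIj hjx hBj hBI hrX
  have hxk : x ≤ k := by
    have := Finset.mem_range.1 ((tr_sub.trans pr_sub_range) hx)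
    omega
  have hv1 : Bt β 2 (v3 2 0 1) (v3 0 1 1) 2 := by
    rcases hcla with hJ | hv
    · exfalso
      apply hnb
      refine rel_of_jjd hoca h3b ?_ hc hddA hcP hcP' he
      refine (hRb 2 _ _).2 ((FC.ofFIC β).ext ?_ ?_ hJ)
      · intro j hj
        interval_cases j <;> simp [v3]
      · intro j hj
        interval_cases j <;> simp [v3]
    · exact hv
  have hv2 : Bt ρ 2 (v3 2 0 1) (v3 0 1 1) 2 := fun e => rr_mono hle (hv1 e)
  have hf := bmap_tc (k := k) (p := k - x) (q := k - j) (r := i) (by omega) (by omega) hi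
  have e2 : tc (k - x) (k - j) i 2 = i := by simp [tc]
  have hd1 : deg 2 (v3 2 0 1) = 3 := by
    unfold deg
    rw [Finset.sum_range_succ, Finset.sum_range_succ, Finset.sum_range_succ,
      Finset.sum_range_zero]
    simp [v3]
  have hd2 : deg 2 (v3 0 1 1) = 2 := by
    unfold deg
    rw [Finset.sum_range_succ, Finset.sum_range_succ, Finset.sum_range_succ,
      Finset.sum_range_zero]
    simp [v3]
  have h5 := C4Z 2 k (tc (k - x) (k - j) i) (v3 2 0 1) (v3 0 1 1) 2 hf (by omega) (by omega)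
    (le_refl 2) (by simp [v3]) (by simp [v3]) (fun j hj hj' => absurd hj' (by omega)) hv2
  rw [e2] at h5
  have hA : ∀ t, psh 2 (tc (k - x) (k - j) i) (v3 2 0 1) t =
      (if t = k - x then 2 else 0) + (if t = k - j then 0 else 0) + (if t = i then 1 else 0) :=
    fun t => psh_tc _ _ _ 2 0 1 t
  have hB : ∀ t, psh 2 (tc (k - x) (k - j) i) (v3 0 1 1) t =
      (if t = k - x then 0 else 0) + (if t = k - j then 1 else 0) + (if t = i then 1 else 0) :=
    fun t => psh_tc _ _ _ 0 1 1 t
  have hA1 : 1 ≤ psh 2 (tc (k - x) (k - j) i) (v3 2 0 1) i := by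
    rw [hA, if_pos (rfl : i = i)]
    omega
  have hB1 : 1 ≤ psh 2 (tc (k - x) (k - j) i) (v3 0 1 1) i := by
    rw [hB, if_pos (rfl : i = i)]
    omega
  have hdA' : 2 ≤ deg k (psh 2 (tc (k - x) (k - j) i) (v3 2 0 1)) := by
    have h6 : psh 2 (tc (k - x) (k - j) i) (v3 2 0 1) =
        fun t => (if t = k - x then 2 else 0) + (if t = i then 1 else 0) := by
      funext t
      rw [hA, ite_self]
      omega
    rw [h6, deg_two (by omega) hi]
    omega
  have hdB' : 2 ≤ deg k (psh 2 (tc (k - x) (k - j) i) (v3 0 1 1)) := by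
    have h6 : psh 2 (tc (k - x) (k - j) i) (v3 0 1 1) =
        fun t => (if t = k - j then 1 else 0) + (if t = i then 1 else 0) := by
      funext t
      rw [hB, ite_self]
      omega
    rw [h6, deg_two (by omega) hi]
  -- the representative in the original order
  obtain ⟨w, hw⟩ : ∃ w : ℕ → ℕ, w = fun t =>
      rp (tr c (pr k (fun j => a (k - j)))) x (deg k (fun j => a (k - j))) (k - t) := ⟨_, rfl⟩
  have hwx : 2 ≤ w (k - x) := by
    rw [hw]
    dsimp only
    rw [show k - (k - x) = x by omega]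
    unfold rp
    rw [if_pos hx, if_pos rfl, tr_card hcP]
    omega
  have hwi : w i = 1 := by
    rw [hw]
    dsimp only
    exact rp_one hIx (by omega)
  have h6 := C3 k (psh 2 (tc (k - x) (k - j) i) (v3 2 0 1))
    (psh 2 (tc (k - x) (k - j) i) (v3 0 1 1))
    (fun t => w t - psh 2 (tc (k - x) (k - j) i) (v3 2 0 1) t)
    (fun t => b t - psh 2 (tc (k - x) (k - j) i) (v3 0 1 1) t) i hdA' hdB' hi hA1 hB1 h5
  have ea : (fun t => psh 2 (tc (k - x) (k - j) i) (v3 2 0 1) t +
      (w t - psh 2 (tc (k - x) (k - j) i) (v3 2 0 1) t)) = w := by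
    funext t
    rw [hA]
    by_cases h7 : t = k - x
    · rw [if_pos h7, if_neg (show ¬ t = i by omega), ite_self, h7]
      omega
    · rw [if_neg h7, ite_self]
      by_cases h8 : t = i
      · rw [if_pos h8, h8, hwi]
      · rw [if_neg h8]
        omega
  have hBj' : b (k - j) ≠ 0 := hBj
  have hBI' : b i = 1 := by
    have h7 : b (k - (k - i)) = 1 := hBI
    rw [show k - (k - i) = i by omega] at h7
    exact h7
  have eb : (fun t => psh 2 (tc (k - x) (k - j) i) (v3 0 1 1) t +
      (b t - psh 2 (tc (k - x) (k - j) i) (v3 0 1 1) t)) = b := by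
    funext t
    rw [hB, ite_self]
    by_cases h7 : t = k - j
    · rw [if_pos h7, if_neg (show ¬ t = i by omega), h7]
      omega
    · rw [if_neg h7]
      by_cases h8 : t = i
      · rw [if_pos h8, h8, hBI']
      · rw [if_neg h8]
        omega
  rw [ea, eb] at h6
  refine C2 k a w b i ?_ h6
  rw [hw]
  exact back hR hrX

end Pool.Agent.MVO.H67
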