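import Pool.Agent.MVO.StmtsC
import Pool.Agent.Helper65_MVO.TAC

/-! Squad MVO, row TCB (helper67): combinatorics of profiles over `O3`. -/

set_option autoImplicit false

namespace Pool.Agent.MVO.H67

open Pool.Agent.Helper14_MV Pool.Agent.Helper2_MV Pool.Agent.MVO
open Pool.Agent.MVO.H65.TacRow

/-! ### initial segments -/

theorem mem_tr {m j : ℕ} {P : Finset ℕ} :
    j ∈ tr m P ↔ j ∈ P ∧ (P.filter (fun i => i < j)).card < m := by
  unfold tr
  rw [Finset.mem_filter]

theorem rk_lt {P : Finset ℕ} {i j : ℕ} (hi : i ∈ P) (hij : i < j) :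
    (P.filter (fun t => t < i)).card < (P.filter (fun t => t < j)).card := by
  apply Finset.card_lt_card
  rw [Finset.ssubset_iff_of_subset]
  · exact ⟨i, Finset.mem_filter.2 ⟨hi, hij⟩, fun h => lt_irrefl _ (Finset.mem_filter.1 h).2⟩
  · intro t ht
    rw [Finset.mem_filter] at ht ⊢
    exact ⟨ht.1, by omega⟩

theorem rk_inj {P : Finset ℕ} :
    Set.InjOn (fun j => (P.filter (fun t => t < j)).card) (P : Set ℕ) := by
  intro i hi j hj hij
  rcases Nat.lt_trichotomy i j with h | h | h
  · exact absurd hij (rk_lt (Finset.mem_coe.1 hi) h).ne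
  · exact h
  · exact absurd hij (rk_lt (Finset.mem_coe.1 hj) h).ne'

theorem rk_image (P : Finset ℕ) :
    P.image (fun j => (P.filter (fun t => t < j)).card) = Finset.range P.card := by
  apply Finset.eq_of_subset_of_card_le
  · intro r hr
    obtain ⟨j, hj, rfl⟩ := Finset.mem_image.1 hr
    rw [Finset.mem_range]
    apply Finset.card_lt_card
    rw [Finset.filter_ssubset]
    exact ⟨j, hj, lt_irrefl _⟩
  · rw [Finset.card_range, Finset.card_image_of_injOn rk_inj]

theorem tr_card {P : Finset ℕ} {m : ℕ} (h : m ≤ P.card) : (tr m P).card = m := by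
  have h1 : (tr m P).image (fun j => (P.filter (fun t => t < j)).card) = Finset.range m := by
    ext r
    rw [Finset.mem_image, Finset.mem_range]
    constructor
    · rintro ⟨j, hj, rfl⟩
      exact (mem_tr.1 hj).2
    · intro hr
      have h2 : r ∈ P.image (fun j => (P.filter (fun t => t < j)).card) := by
        rw [rk_image, Finset.mem_range]
        omega
      obtain ⟨j, hj, hjr⟩ := Finset.mem_image.1 h2
      refine ⟨j, mem_tr.2 ⟨hj, ?_⟩, hjr⟩
      have h3 : (P.filter (fun t => t < j)).card = r := hjr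
      omega
  have h2 := Finset.card_image_of_injOn (s := tr m P)
    (f := fun j => (P.filter (fun t => t < j)).card) (rk_inj.mono (Finset.coe_subset.2 tr_sub))
  rw [h1, Finset.card_range] at h2
  exact h2.symm

theorem tr_tr {P : Finset ℕ} {m n : ℕ} (h : m ≤ n) : tr m (tr n P) = tr m P := by
  ext j
  have key : j ∈ tr n P →
      (tr n P).filter (fun i => i < j) = P.filter (fun i => i < j) := by
    intro hj
    ext i
    rw [Finset.mem_filter, Finset.mem_filter]
    constructor
    · rintro ⟨h1, h2⟩
      exact ⟨tr_sub h1, h2⟩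
    · rintro ⟨h1, h2⟩
      refine ⟨mem_tr.2 ⟨h1, ?_⟩, h2⟩
      exact lt_trans (rk_lt h1 h2) (mem_tr.1 hj).2
  constructor
  · intro h0
    obtain ⟨h1, h2⟩ := mem_tr.1 h0
    rw [key h1] at h2
    exact mem_tr.2 ⟨tr_sub h1, h2⟩
  · intro h0
    obtain ⟨h1, h2⟩ := mem_tr.1 h0
    have h3 : j ∈ tr n P := mem_tr.2 ⟨h1, by omega⟩
    refine mem_tr.2 ⟨h3, ?_⟩
    rw [key h3]
    exact h2

/-- adding a new maximum -/
theorem tr_insert {X : Finset ℕ} {j : ℕ} (h : ∀ y ∈ X, y < j) : tr X.card (insert j X) = X := by
  have hj : j ∉ X := fun hj => lt_irrefl _ (h j hj)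
  ext t
  rw [mem_tr, Finset.mem_insert]
  constructor
  · rintro ⟨h1, h2⟩
    rcases h1 with h1 | h1
    · exfalso
      have h3 : (insert j X).filter (fun i => i < t) = X := by
        ext i
        rw [Finset.mem_filter, Finset.mem_insert, h1]
        constructor
        · rintro ⟨h4 | h4, h5⟩
          · omega
          · exact h4
        · intro h4
          exact ⟨Or.inr h4, h _ h4⟩
      rw [h3] at h2
      exact lt_irrefl _ h2
    · exact h1
  · intro h1
    refine ⟨Or.inr h1, ?_⟩
    have h3 : (insert j X).filter (fun i => i < t) = X.filter (fun i => i < t) := by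
      ext i
      rw [Finset.mem_filter, Finset.mem_filter, Finset.mem_insert]
      constructor
      · rintro ⟨h4 | h4, h5⟩
        · have := h t h1
          omega
        · exact ⟨h4, h5⟩
      · rintro ⟨h4, h5⟩
        exact ⟨Or.inr h4, h5⟩
    rw [h3]
    apply Finset.card_lt_card
    rw [Finset.filter_ssubset]
    exact ⟨t, h1, lt_irrefl _⟩

theorem tr_erase {P : Finset ℕ} {r : ℕ} (hr : r ∈ P) (h : ∀ j ∈ P, j ≤ r) :
    tr (P.card - 1) P = P.erase r := by
  have h1 : insert r (P.erase r) = P := Finset.insert_erase hr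
  have h2 := tr_insert (X := P.erase r) (j := r) (fun y hy => by
    have h3 := h y (Finset.mem_of_mem_erase hy)
    have h4 := Finset.ne_of_mem_erase hy
    omega)
  rw [Finset.card_erase_of_mem hr, h1] at h2
  exact h2

/-- two different sets: the longest common initial segment -/
theorem common {P P' : Finset ℕ} (hne : P ≠ P') :
    ∃ c, tr c P = tr c P' ∧ (∀ m, c < m → tr m P ≠ tr m P') ∧ c ≤ P.card ∧ c ≤ P'.card ∧
      (c + 1 ≤ P.card ∨ c + 1 ≤ P'.card) := by
  classical
  have hex : ∃ m, tr m P ≠ tr m P' := by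
    refine ⟨max P.card P'.card, ?_⟩
    rw [tr_eq_self (le_max_left _ _), tr_eq_self (le_max_right _ _)]
    exact hne
  obtain ⟨m0, hm0, hmin⟩ : ∃ m0, tr m0 P ≠ tr m0 P' ∧ ∀ m < m0, tr m P = tr m P' :=
    ⟨Nat.find hex, Nat.find_spec hex, fun m hm => not_not.1 (Nat.find_min hex hm)⟩
  have h0 : m0 ≠ 0 := by
    intro h
    apply hm0
    rw [h]
    have : ∀ S : Finset ℕ, tr 0 S = ∅ := by
      intro S
      unfold tr
      exact Finset.filter_false_of_mem fun j _ => Nat.not_lt_zero _
    rw [this, this]
  have hc := hmin (m0 - 1) (by omega)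
  have h1 : m0 - 1 ≤ P.card := by
    by_contra h2
    push Not at h2
    have h3 : tr (m0 - 1) P = P := tr_eq_self h2.le
    have h4 : P'.card < m0 - 1 := by
      by_contra h5
      push Not at h5
      have h6 := tr_card h5
      rw [← hc, h3] at h6
      omega
    rw [h3, tr_eq_self h4.le] at hc
    exact hne hc
  have h2 : m0 - 1 ≤ P'.card := by
    by_contra h2
    push Not at h2
    have h3 : tr (m0 - 1) P' = P' := tr_eq_self h2.le
    have h6 := tr_card h1
    rw [hc, h3] at h6
    omega
  refine ⟨m0 - 1, hc, ?_, h1, h2, ?_⟩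
  · intro m hm he
    apply hm0
    have e1 : tr m0 (tr m P) = tr m0 P := tr_tr (by omega)
    have e2 : tr m0 (tr m P') = tr m0 P' := tr_tr (by omega)
    rw [← e1, ← e2, he]
  · by_contra h3
    push Not at h3
    have h4 : P.card ≤ m0 - 1 := by omega
    have h5 : P'.card ≤ m0 - 1 := by omega
    rw [tr_eq_self h4, tr_eq_self h5] at hc
    exact hne hc

/-! ### vectors -/

theorem rp_zero {P : Finset ℕ} {m d j : ℕ} (hm : m ∈ P) (h : j ∉ P) : rp P m d j = 0 := by
  unfold rp
  rw [if_neg h, if_neg (fun h1 => h (by rw [h1]; exact hm))]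

theorem rp_ne_zero {P : Finset ℕ} {m d j : ℕ} (h : j ∈ P) : rp P m d j ≠ 0 := by
  unfold rp
  rw [if_pos h]
  omega

theorem rp_one {P : Finset ℕ} {m d j : ℕ} (h : j ∈ P) (hj : j ≠ m) : rp P m d j = 1 := by
  unfold rp
  rw [if_pos h, if_neg hj]

/-- the map of three blocks -/
def tc (p q r : ℕ) : ℕ → ℕ := fun t => if t = 0 then p else if t = 1 then q else r

theorem bmap_tc {k p q r : ℕ} (h : p ≤ q) (h' : q ≤ r) (hr : r ≤ k) : BMap 2 k (tc p q r) := by
  refine ⟨?_, ?_⟩
  · intro i j hij hj
    unfold tc
    split_ifs <;> omega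
  · intro i _
    unfold tc
    split_ifs <;> omega

theorem psh_tc (p q r u v w : ℕ) (j : ℕ) :
    psh 2 (tc p q r) (v3 u v w) j =
      (if j = p then u else 0) + (if j = q then v else 0) + (if j = r then w else 0) := by
  unfold psh
  rw [Finset.sum_range_succ, Finset.sum_range_succ, Finset.sum_range_succ,
    Finset.sum_range_zero, Nat.zero_add]
  simp only [tc, v3, if_true, one_ne_zero, if_false, eq_comm (a := j), OfNat.ofNat_ne_zero,
    OfNat.ofNat_ne_one]

theorem deg_congr {k : ℕ} {a b : ℕ → ℕ} (h : ∀ j ≤ k, a j = b j) : deg k a = deg k b := by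
  unfold deg
  exact Finset.sum_congr rfl fun j hj => h j (by rw [Finset.mem_range] at hj; omega)

theorem deg_add' {k : ℕ} (a b : ℕ → ℕ) : deg k (fun j => a j + b j) = deg k a + deg k b := by
  unfold deg
  exact Finset.sum_add_distrib

theorem deg_single {k i d : ℕ} (hi : i ≤ k) : deg k (fun j => if j = i then d else 0) = d := by
  unfold deg
  rw [Finset.sum_ite_eq', if_pos (Finset.mem_range.2 (by omega))]

/-- the identity `JJd` gives all `JP` -/
theorem jp_of_jjd (hoca : OcaStmt) {R : FC} (h3 : O3 R) (hj : JJd R) {m : ℕ} (hm : 3 ≤ m)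
    (d : ℕ) : JP R m d := by
  intro k a b hda hdb hcard hpr
  obtain ⟨r, hr, hrr⟩ := exists_max (P := pr k a) (Finset.card_pos.1 (by omega))
  have hc1 : ((pr k a).erase r).card = m - 1 := by
    rw [Finset.card_erase_of_mem hr]
    omega
  obtain ⟨q, hq, hqq⟩ := exists_max (P := (pr k a).erase r) (Finset.card_pos.1 (by omega))
  have hc2 : (((pr k a).erase r).erase q).card = m - 2 := by
    rw [Finset.card_erase_of_mem hq]
    omega
  obtain ⟨p, hp, _⟩ := exists_max (P := ((pr k a).erase r).erase q)
    (Finset.card_pos.1 (by omega))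
  have hqP := Finset.mem_of_mem_erase hq
  have hpP' := Finset.mem_of_mem_erase hp
  have hpP := Finset.mem_of_mem_erase hpP'
  have hqr : q < r := by
    have h1 := hrr q hqP
    have h2 := Finset.ne_of_mem_erase hq
    omega
  have hpq : p < q := by
    have h1 := hqq p hpP'
    have h2 := Finset.ne_of_mem_erase hp
    omega
  have hrk : r ≤ k := by
    have := Finset.mem_range.1 (pr_sub_range hr)
    omega
  have e1 : R.R k (fun j => (if j = p then 1 else 0) + (if j = q then 1 else 0) +
        (if j = r then 1 else 0))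
      (fun j => (if j = p then 1 else 0) + (if j = q then 2 else 0) +
        (if j = r then 0 else 0)) :=
    R.ext (fun j _ => psh_tc p q r 1 1 1 j) (fun j _ => psh_tc p q r 1 2 0 j)
      (R.push k _ (bmap_tc hpq.le hqr.le hrk) hj)
  have e2 := R.add (fun j => rp (pr k a) r d j - ((if j = p then 1 else 0) +
    (if j = q then 1 else 0) + (if j = r then 1 else 0))) e1
  -- values of the first vector
  have hdP : m ≤ d := by
    rw [← hcard, ← hda]
    exact card_pr_le
  have v1 : ∀ j, (if j = p then 1 else 0) + (if j = q then 1 else 0) +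
      (if j = r then 1 else 0) ≤ rp (pr k a) r d j := by
    intro j
    unfold rp
    by_cases h1 : j = r
    · rw [if_neg (by omega), if_neg (by omega), if_pos h1, if_pos (by rw [h1]; exact hr)]
      omega
    · rw [if_neg h1]
      by_cases h2 : j = q
      · rw [if_neg (by omega), if_pos h2, if_pos (by rw [h2]; exact hqP)]
        omega
      · rw [if_neg h2]
        by_cases h4 : j = p
        · rw [if_pos h4, if_pos (by rw [h4]; exact hpP)]
          omega
        · rw [if_neg h4]
          omega
  obtain ⟨w, hw⟩ : ∃ w : ℕ → ℕ, w = fun j => (if j = p then 1 else 0) +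
      (if j = q then 2 else 0) + (if j = r then 0 else 0) + (rp (pr k a) r d j -
        ((if j = p then 1 else 0) + (if j = q then 1 else 0) + (if j = r then 1 else 0))) :=
    ⟨_, rfl⟩
  rw [← hw] at e2
  have e3 : R.R k (rp (pr k a) r d) w := by
    refine R.ext ?_ (fun _ _ => rfl) e2
    intro j _
    have := v1 j
    omega
  have hwv : ∀ j, w j + (if j = r then 1 else 0) =
      rp (pr k a) r d j + (if j = q then 1 else 0) := by
    intro j
    have h1 := v1 j
    have h2 : (if j = q then 2 else 0) = 2 * (if j = q then 1 else 0) := by split_ifs <;> rfl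
    have h4 : (if j = r then 0 else 0) = 0 := by split_ifs <;> rfl
    rw [hw]
    dsimp only
    rw [h2, h4]
    omega
  have hrpd : deg k (rp (pr k a) r d) = d := deg_rp pr_sub_range hr (by omega)
  have hwd : deg k w = d := by
    have h1 : deg k (fun j => w j + (if j = r then 1 else 0)) =
        deg k (fun j => rp (pr k a) r d j + (if j = q then 1 else 0)) :=
      deg_congr fun j _ => hwv j
    rw [deg_add', deg_add', hrpd, deg_single hrk, deg_single (by omega)] at h1
    omega
  have hwp : pr k w = tr (m - 1) (pr k a) := by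
    rw [← hcard, tr_erase hr hrr]
    have hwq : w q = 2 := by
      have h1 := hwv q
      rw [if_neg (by omega), if_pos rfl, rp_one hqP (by omega)] at h1
      omega
    have hwo : ∀ j, j ≠ r → j ≠ q → w j = rp (pr k a) r d j := by
      intro j h1 h2
      have h4 := hwv j
      rw [if_neg h1, if_neg h2] at h4
      omega
    ext j
    unfold pr
    rw [Finset.mem_filter, mem_sp']
    constructor
    · rintro ⟨⟨h1, h2⟩, h4⟩
      have hjq : j ≤ q := by
        by_contra h5
        push Not at h5
        have := h4 q h5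
        omega
      by_cases h5 : j = q
      · rw [h5]
        exact hq
      · rw [hwo j (by omega) h5] at h2
        have h6 : j ∈ pr k a := by
          by_contra h7
          exact h2 (rp_zero hr h7)
        exact Finset.mem_erase.2 ⟨by omega, h6⟩
    · intro h1
      have h2 := Finset.mem_of_mem_erase h1
      have h4 := hqq j h1
      have h5 := Finset.mem_range.1 (pr_sub_range h2)
      refine ⟨⟨by omega, ?_⟩, ?_⟩
      · by_cases h6 : j = q
        · rw [h6, hwq]
          omega
        · rw [hwo j (by omega) h6]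
          exact rp_ne_zero h2
      · intro i hi
        rw [hwo i (by omega) (by omega)]
        by_cases h6 : i ∈ pr k a
        · rw [rp_one h6 (by omega)]
        · rw [rp_zero hr h6]
          omega
  have e4 : R.R k a (rp (pr k a) r d) := by
    rw [← hda]
    exact rp_rel hoca h3 hr hrr
  exact R.trans e4 (R.trans e3 (hoca R k _ _ h3 (by rw [hwd, hdb]) (by rw [hwp, hpr])))

/-- going down in the profile -/
theorem desc (hoca : OcaStmt) {R : FC} (h3 : O3 R) {c : ℕ} (hc : 2 ≤ c) (k d : ℕ) :
    ∀ (n : ℕ) (a : ℕ → ℕ), (pr k a).card = c + n → deg k a = d →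
      (∀ m, 3 ≤ m → c < m → m ≤ c + n → JP R m d) →
        ∀ C : ℕ → ℕ, deg k C = d → pr k C = tr c (pr k a) → R.R k a C := by
  intro n
  induction n with
  | zero =>
    intro a hcard hda _ C hdC hC
    rw [tr_eq_self (by omega)] at hC
    exact hoca R k a C h3 (by rw [hda, hdC]) hC.symm
  | succ n ih =>
    intro a hcard hda hJ C hdC hC
    have hsub : tr (c + n) (pr k a) ⊆ Finset.range (k + 1) := tr_sub.trans pr_sub_range
    have hcd : (tr (c + n) (pr k a)).card = c + n := tr_card (by omega)
    have hdle : (pr k a).card ≤ d := by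
      rw [← hda]
      exact card_pr_le
    obtain ⟨q, hq, hqq⟩ := exists_max (P := tr (c + n) (pr k a)) (Finset.card_pos.1 (by omega))
    have h1 := hJ (c + n + 1) (by omega) (by omega) (by omega) k a
      (rp (tr (c + n) (pr k a)) q d) hda (deg_rp hsub hq (by omega)) (by omega)
      (by rw [pr_rp hsub hq hqq]; rfl)
    refine R.trans h1 (ih _ ?_ (deg_rp hsub hq (by omega)) ?_ C hdC ?_)
    · rw [pr_rp hsub hq hqq, hcd]
    · intro m hm1 hm2 hm3
      exact hJ m hm1 hm2 (by omega)
    · rw [hC, pr_rp hsub hq hqq, tr_tr (by omega)]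

/-- `JJd` relates all types with the same initial segment of length `c ≥ 2` -/
theorem rel_of_jjd (hoca : OcaStmt) {R : FC} (h3 : O3 R) (hj : JJd R) {c k : ℕ} (hc : 2 ≤ c)
    {a a' : ℕ → ℕ} (hdd : deg k a = deg k a') (h1 : c ≤ (pr k a).card)
    (h2 : c ≤ (pr k a').card) (he : tr c (pr k a) = tr c (pr k a')) : R.R k a a' := by
  have hsub : tr c (pr k a) ⊆ Finset.range (k + 1) := tr_sub.trans pr_sub_range
  have hcd : (tr c (pr k a)).card = c := tr_card h1
  have hdle : (pr k a).card ≤ deg k a := card_pr_le
  obtain ⟨q, hq, hqq⟩ := exists_max (P := tr c (pr k a)) (Finset.card_pos.1 (by omega))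
  have hdC : deg k (rp (tr c (pr k a)) q (deg k a)) = deg k a := deg_rp hsub hq (by omega)
  have hpC := pr_rp (d := deg k a) hsub hq hqq
  have e1 := desc hoca h3 hc k (deg k a) ((pr k a).card - c) a (by omega) rfl
    (fun m hm _ _ => jp_of_jjd hoca h3 hj hm _) _ hdC hpC
  have e2 := desc hoca h3 hc k (deg k a) ((pr k a').card - c) a' (by omega) hdd.symm
    (fun m hm _ _ => jp_of_jjd hoca h3 hj hm _) _ hdC (by rw [hpC, he])
  exact R.trans e1 (R.symm e2)

end Pool.Agent.MVO.H67
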