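import Pool.Agent.Helper67_MVO.TCBa

/-! Squad MVO, row TCB (helper67): the case analysis in reversed coordinates. -/

set_option autoImplicit false

namespace Pool.Agent.MVO.H67

open Pool.Agent.Helper14_MV Pool.Agent.Helper2_MV Pool.Agent.MVO
open Pool.Agent.MVO.H65.TacRow

/-- the reversed `FR` -/
def FRr (k : ℕ) (A B : ℕ → ℕ) (I : ℕ) : Prop :=
  (∀ j ≤ k, I < j → A j = 0 ∧ B j = 0) ∧ (∀ j ≤ k, j ≠ I → A j = 0 ∨ B j = 0) ∧ 1 ≤ A I ∧
    1 ≤ B I ∧ (A I = 1 ∨ B I = 1)

/-- the reversed `ZR` -/
def ZRr (k : ℕ) (A B : ℕ → ℕ) (I : ℕ) : Prop :=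
  (∀ j < I, A j = 0 ∧ B j = 0) ∧ (∀ j ≤ k, j ≠ I → A j = 0 ∨ B j = 0) ∧ A I = 1 ∧ B I = 1

theorem deg_eq_one {k I : ℕ} {B : ℕ → ℕ} (hI : I ≤ k) (h : ∀ j ≤ k, j ≠ I → B j = 0) :
    deg k B = B I := by
  unfold deg
  apply Finset.sum_eq_single I
  · intro j hj hji
    rw [Finset.mem_range] at hj
    exact h j (by omega) hji
  · intro h1
    exact absurd (Finset.mem_range.2 (by omega)) h1

theorem two_eq {P : Finset ℕ} {I : ℕ} (hI : I ∈ P) (h : ∀ j ∈ P, j ≤ I) (hc : P.card ≤ 2) :
    ∃ p ∈ P, (∀ j ∈ P, p ≤ j) ∧ P = {p, I} := by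
  refine ⟨P.min' ⟨I, hI⟩, Finset.min'_mem _ _, fun j hj => Finset.min'_le _ _ hj, ?_⟩
  have hsub : ({P.min' ⟨I, hI⟩, I} : Finset ℕ) ⊆ P := by
    intro j hj
    rw [Finset.mem_insert, Finset.mem_singleton] at hj
    rcases hj with hj | hj
    · rw [hj]
      exact Finset.min'_mem _ _
    · rw [hj]
      exact hI
  by_cases hp : P.min' ⟨I, hI⟩ = I
  · ext j
    rw [hp, Finset.mem_insert, Finset.mem_singleton, or_self]
    constructor
    · intro hj
      have h1 := Finset.min'_le P j hj
      have h2 := h j hj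
      omega
    · intro hj
      rw [hj]
      exact hI
  · symm
    apply Finset.eq_of_subset_of_card_le hsub
    rw [Finset.card_pair hp]
    exact hc

theorem min_of {P : Finset ℕ} {m : ℕ} (hm : m ∈ P) (h : ∀ j ∈ P, m ≤ j) :
    P.min = (m : WithTop ℕ) := by
  apply le_antisymm
  · exact Finset.min_le hm
  · apply Finset.le_min
    intro j hj
    exact WithTop.coe_le_coe.2 (h j hj)

theorem tr_one {P : Finset ℕ} {I : ℕ} (hI : I ∈ P) (h : ∀ j ∈ P, I ≤ j) : tr 1 P = {I} := by
  ext j
  rw [mem_tr, Finset.mem_singleton]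
  constructor
  · rintro ⟨h1, h2⟩
    by_contra h3
    have h4 := h j h1
    have h5 : 0 < (P.filter (fun i => i < j)).card :=
      Finset.card_pos.2 ⟨I, Finset.mem_filter.2 ⟨hI, by omega⟩⟩
    omega
  · intro h1
    rw [h1]
    refine ⟨hI, ?_⟩
    have h2 : P.filter (fun i => i < I) = ∅ := by
      apply Finset.filter_false_of_mem
      intro i hi
      have := h i hi
      omega
    rw [h2, Finset.card_empty]
    omega

theorem min_mem_tr {P : Finset ℕ} {I c : ℕ} (hI : I ∈ P) (h : ∀ j ∈ P, I ≤ j) (hc : 1 ≤ c) :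
    I ∈ tr c P := by
  refine mem_tr.2 ⟨hI, ?_⟩
  have h2 : P.filter (fun i => i < I) = ∅ := by
    apply Finset.filter_false_of_mem
    intro i hi
    have := h i hi
    omega
  rw [h2, Finset.card_empty]
  omega

/-- the vector with two entries -/
theorem rp_pair {I l d : ℕ} (h : I ≠ l) (hd : 2 ≤ d) (j : ℕ) :
    rp {I, l} l d j = (if j = I then 1 else 0) + (if j = l then d - 1 else 0) := by
  unfold rp
  rw [Finset.card_pair h]
  by_cases hjl : j = l
  · rw [if_pos hjl, if_pos hjl, if_pos (by rw [hjl]; simp), if_neg (by omega)]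
    omega
  · rw [if_neg hjl, if_neg hjl]
    by_cases hjI : j = I
    · rw [if_pos hjI, if_pos (by rw [hjI]; simp)]
    · rw [if_neg hjI, if_neg]
      rw [Finset.mem_insert, Finset.mem_singleton]
      omega

theorem deg_two {k p q u v : ℕ} (hp : p ≤ k) (hq : q ≤ k) :
    deg k (fun j => (if j = p then u else 0) + (if j = q then v else 0)) = u + v := by
  rw [deg_add', deg_single hp, deg_single hq]

theorem push2 {R : FC} {k p q u v u' v' : ℕ} (hpq : p ≤ q) (hq : q ≤ k)
    (h : R.R 1 (v2 u v) (v2 u' v')) :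
    R.R k (fun j => (if j = p then u else 0) + (if j = q then v else 0))
      (fun j => (if j = p then u' else 0) + (if j = q then v' else 0)) :=
  R.ext (fun j _ => psh_tb p q u v j) (fun j _ => psh_tb p q u' v' j)
    (R.push k (tb p q) (bmap_tb hpq hq) h)

theorem coreF (hoca : OcaStmt) (hocr : OcrStmt) {R : FC} (h3 : O3 R) {k I : ℕ} (hI : I ≤ k)
    {A A' B : ℕ → ℕ} {G : Prop} (hdA : 2 ≤ deg k A) (hdd : deg k A = deg k A')
    (hdB : 2 ≤ deg k B) (hRR : R.R k A A') (hP : pr k A ≠ pr k A') (hF : FRr k A B I)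
    (rule : ∀ C, R.R k A C → deg k C = deg k A → ¬ FRr k C B I → ¬ ZRr k C B I → G) : G := by
  obtain ⟨f1, f2, f3, f4, _⟩ := hF
  have rule0 : ∀ C, R.R k A C → deg k C = deg k A → C I = 0 → G := by
    intro C h1 h2 h4
    refine rule C h1 h2 ?_ ?_
    · intro h
      have := h.2.2.1
      omega
    · intro h
      have := h.2.2.1
      omega
  obtain ⟨m, hm, hmm⟩ := exists_max (pr_nonempty (k := k) (a := A) (by omega))
  obtain ⟨m', hm', hmm'⟩ := exists_max (pr_nonempty (k := k) (a := A') (by omega))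
  have hra : R.R k A (rp (pr k A) m (deg k A)) := rp_rel hoca h3 hm hmm
  have hra' : R.R k A (rp (pr k A') m' (deg k A)) := by
    have h1 := rp_rel hoca h3 hm' hmm'
    rw [← hdd] at h1
    exact R.trans hRR h1
  have hle : ∀ j ∈ pr k A, j ≤ I := by
    intro j hj
    by_contra h1
    push Not at h1
    have h2 := mem_sp'.1 (pr_sub_sp hj)
    exact h2.2 (f1 j h2.1 h1).1
  by_cases hmI : m = I
  swap
  · refine rule0 _ hra (deg_rp pr_sub_range hm card_pr_le) (rp_zero hm fun hIP => ?_)
    have h1 := hmm I hIP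
    have h2 := hle m hm
    omega
  have hcd' : (pr k A').card ≤ deg k A := by
    rw [hdd]
    exact card_pr_le
  by_cases hmI' : m' = I
  swap
  · refine rule _ hra' (deg_rp pr_sub_range hm' hcd') ?_ ?_
    · rintro ⟨g1, _, g3, _⟩
      have h1 : I ∈ pr k A' := by
        by_contra h1
        rw [rp_zero hm' h1] at g3
        omega
      have h2 := hmm' I h1
      have h4 := Finset.mem_range.1 (pr_sub_range hm')
      exact rp_ne_zero hm' (g1 m' (by omega) (by omega)).1
    · rintro ⟨g1, _, _, g4⟩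
      have h1 := deg_eq_one (B := B) hI (by
        intro j hj hji
        rcases Nat.lt_or_gt_of_ne hji with h | h
        · exact (g1 j h).2
        · exact (f1 j hj h).2)
      omega
  subst hmI
  subst hmI'
  obtain ⟨C1, _, _, C4, _⟩ := hocr R k A A' h3 hdA hdd hRR hP
  by_cases hcard : 3 ≤ (pr k A).card
  · have hJ := C1 (pr k A).card hcard (tr_ne (le_refl _) hP hm hmm') (Or.inl (le_refl _))
    have hsub : tr ((pr k A).card - 1) (pr k A) ⊆ Finset.range (k + 1) :=
      tr_sub.trans pr_sub_range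
    have hcd : (tr ((pr k A).card - 1) (pr k A)).card ≤ deg k A :=
      (Finset.card_le_card tr_sub).trans card_pr_le
    obtain ⟨q, hq, hqq⟩ := exists_max (tr_nonempty (P := pr k A) (m := (pr k A).card - 1)
      ⟨_, hm⟩ (by omega))
    have h5 := hJ k A (rp (tr ((pr k A).card - 1) (pr k A)) q (deg k A)) rfl
      (deg_rp hsub hq hcd) rfl (pr_rp hsub hq hqq)
    exact rule0 _ h5 (deg_rp hsub hq hcd) (rp_zero hq (tr_top hm hmm))
  by_cases hcard' : 3 ≤ (pr k A').card
  · have hJ := C1 (pr k A').card hcard' (tr_ne (le_refl _) (Ne.symm hP) hm' hmm).symm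
      (Or.inr (le_refl _))
    have hsub : tr ((pr k A').card - 1) (pr k A') ⊆ Finset.range (k + 1) :=
      tr_sub.trans pr_sub_range
    have hcd : (tr ((pr k A').card - 1) (pr k A')).card ≤ deg k A :=
      (Finset.card_le_card tr_sub).trans hcd'
    obtain ⟨q, hq, hqq⟩ := exists_max (tr_nonempty (P := pr k A') (m := (pr k A').card - 1)
      ⟨_, hm'⟩ (by omega))
    have h5 := hJ k A' (rp (tr ((pr k A').card - 1) (pr k A')) q (deg k A)) hdd.symm
      (deg_rp hsub hq hcd) rfl (pr_rp hsub hq hqq)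
    exact rule0 _ (R.trans hRR h5) (deg_rp hsub hq hcd) (rp_zero hq (tr_top hm' hmm'))
  obtain ⟨p, hp, hpp, hPp⟩ := two_eq hm hmm (by omega)
  obtain ⟨p', hp', hpp', hPp'⟩ := two_eq hm' hmm' (by omega)
  have hmin : (pr k A).min ≠ (pr k A').min := by
    intro h
    rw [min_of hp hpp, min_of hp' hpp'] at h
    have h1 : p = p' := WithTop.coe_inj.1 h
    apply hP
    rw [hPp, hPp', h1]
  have hB := C4 hmin (by
    rintro ⟨h5, h6⟩
    obtain ⟨x, hx⟩ := Finset.card_eq_one.1 h5
    obtain ⟨x', hx'⟩ := Finset.card_eq_one.1 h6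
    apply hP
    rw [hx] at hm
    rw [hx'] at hm'
    rw [hx, hx', ← Finset.mem_singleton.1 hm, ← Finset.mem_singleton.1 hm'])
  unfold B3 at hB
  have hsg : R.R k A (fun j => (if j = p then 0 else 0) + (if j = m' then deg k A else 0)) := by
    by_cases hpm : p = m'
    · refine R.ext (fun _ _ => rfl) ?_ hra
      intro j _
      have hs : pr k A = {m'} := by
        rw [hPp, hpm]
        simp
      unfold rp
      rw [hs, Finset.card_singleton, ite_self, Nat.zero_add]
      by_cases hj : j = m'
      · rw [if_pos hj, if_pos hj, if_pos (by rw [hj]; simp)]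
        omega
      · rw [if_neg hj, if_neg hj, if_neg (by rw [Finset.mem_singleton]; exact hj)]
    · have hpm' : p < m' := by
        have := hpp m' hm
        omega
      have h5 := push2 (k := k) hpm'.le hI hB
      have h6 : R.R k A (fun j => (if j = p then 1 else 0) +
          (if j = m' then deg k A - 1 else 0)) := by
        refine R.ext (fun _ _ => rfl) ?_ hra
        intro j _
        rw [hPp]
        exact rp_pair hpm hdA j
      exact R.trans h6 (R.symm h5)
  by_cases hQ : ∃ q < m', B q ≠ 0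
  · obtain ⟨q, hq, hBq⟩ := hQ
    have h5 := push2 (k := k) hq.le hI hB
    have h6 : R.R k A (fun j => (if j = q then 1 else 0) +
        (if j = m' then deg k A - 1 else 0)) := by
      refine R.trans hsg (R.ext ?_ (fun _ _ => rfl) h5)
      intro j _
      rw [ite_self, ite_self]
    have hqk : q ≤ k := by omega
    refine rule _ h6 (by rw [deg_two hqk hI]; omega) ?_ ?_
    · rintro ⟨_, g2, _⟩
      rcases g2 q hqk (by omega) with h7 | h7
      · dsimp only at h7
        rw [if_pos rfl] at h7
        omega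
      · exact hBq h7
    · rintro ⟨_, g2, _⟩
      rcases g2 q hqk (by omega) with h7 | h7
      · dsimp only at h7
        rw [if_pos rfl] at h7
        omega
      · exact hBq h7
  · push Not at hQ
    have hBI : deg k B = B m' := by
      apply deg_eq_one hI
      intro j hj hji
      rcases Nat.lt_or_gt_of_ne hji with h | h
      · exact hQ j h
      · exact (f1 j hj h).2
    have hv : (if m' = p then 0 else 0) + (if m' = m' then deg k A else 0) = deg k A := by
      rw [ite_self, if_pos rfl, Nat.zero_add]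
    refine rule _ hsg ?_ ?_ ?_
    · have hpk : p ≤ k := by
        have := Finset.mem_range.1 (pr_sub_range hp)
        omega
      rw [deg_two hpk hI]
      omega
    · rintro ⟨_, _, _, _, g5⟩
      dsimp only at g5
      rw [hv] at g5
      omega
    · rintro ⟨_, _, g3, _⟩
      dsimp only at g3
      rw [hv] at g3
      omega

theorem coreZ (hoca : OcaStmt) (hocr : OcrStmt) {R : FC} (h3 : O3 R) {k I : ℕ} (hI : I ≤ k)
    {A A' B : ℕ → ℕ} {G : Prop} (hdA : 2 ≤ deg k A) (hdd : deg k A = deg k A')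
    (hdB : 2 ≤ deg k B) (hRR : R.R k A A') (hP : pr k A ≠ pr k A') (hZ : ZRr k A B I)
    (rule : ∀ C, R.R k A C → deg k C = deg k A → ¬ FRr k C B I → ¬ ZRr k C B I → G)
    (hv : ∀ (c x j : ℕ), 2 ≤ c → tr c (pr k A) = tr c (pr k A') → c ≤ (pr k A).card →
      c ≤ (pr k A').card → c + 1 ≤ deg k A → x ∈ tr c (pr k A) →
        (∀ y ∈ tr c (pr k A), y ≤ x) → I ∈ tr c (pr k A) → I < j → j < x → B j ≠ 0 →
          B I = 1 → R.R k A (rp (tr c (pr k A)) x (deg k A)) → G) : G := by
  obtain ⟨f1, _, f3, f4⟩ := hZ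
  obtain ⟨q0, hq0, hq0k, hBq0⟩ : ∃ q, I < q ∧ q ≤ k ∧ B q ≠ 0 := by
    by_contra hcon
    push Not at hcon
    have h1 := deg_eq_one (B := B) hI (by
      intro j hj hji
      rcases Nat.lt_or_gt_of_ne hji with h | h
      · exact (f1 j h).2
      · exact hcon j h hj)
    omega
  have hnF : ∀ C, ¬ FRr k C B I := fun C h => hBq0 (h.1 q0 hq0k hq0).2
  by_cases hZ' : ZRr k A' B I
  swap
  · exact rule A' hRR hdd.symm (hnF _) hZ'
  obtain ⟨g1, _, g3, _⟩ := hZ'
  have hfacts : ∀ {E : ℕ → ℕ}, (∀ j < I, E j = 0) → E I = 1 →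
      I ∈ pr k E ∧ ∀ j ∈ pr k E, I ≤ j := by
    intro E h1 h2
    constructor
    · unfold pr
      rw [Finset.mem_filter, mem_sp']
      refine ⟨⟨hI, by omega⟩, ?_⟩
      intro i hi
      rw [h1 i hi]
      omega
    · intro j hj
      by_contra h4
      push Not at h4
      exact (mem_sp'.1 (pr_sub_sp hj)).2 (h1 j h4)
  obtain ⟨hIP, hPI⟩ := hfacts (fun j hj => (f1 j hj).1) f3
  obtain ⟨hIP', hPI'⟩ := hfacts (fun j hj => (g1 j hj).1) g3
  have hmin : (pr k A).min = (pr k A').min := by
    rw [min_of hIP hPI, min_of hIP' hPI']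
  obtain ⟨c, he, hne, hcP, hcP', hN⟩ := common hP
  have hc1 : 1 ≤ c := by
    by_contra h1
    exact hne 1 (by omega) (by rw [tr_one hIP hPI, tr_one hIP' hPI'])
  obtain ⟨C1, C2, _⟩ := hocr R k A A' h3 hdA hdd hRR hP
  have hcdA : (pr k A).card ≤ deg k A := card_pr_le
  have hcdA' : (pr k A').card ≤ deg k A := by
    rw [hdd]
    exact card_pr_le
  by_cases hc2 : c = 1
  · have hA := C2 hmin (hne 2 (by omega))
    unfold A3 at hA
    -- the profile has at least two elements
    have hcard2 : 2 ≤ (pr k A).card := by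
      obtain ⟨s, hs, hss⟩ : ∃ s ∈ (sp k A).erase I, ∀ j ∈ (sp k A).erase I, s ≤ j := by
        have hn : ((sp k A).erase I).Nonempty := by
          by_contra hn
          rw [Finset.not_nonempty_iff_eq_empty] at hn
          have h1 := deg_eq_one (B := A) hI (by
            intro j hj hji
            by_contra h2
            have h4 : j ∈ (sp k A).erase I := Finset.mem_erase.2 ⟨hji, mem_sp'.2 ⟨hj, h2⟩⟩
            rw [hn] at h4
            exact absurd h4 (Finset.notMem_empty j))
          omega
        exact ⟨((sp k A).erase I).min' hn, Finset.min'_mem _ _,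
          fun j hj => Finset.min'_le _ _ hj⟩
      have hs1 := Finset.ne_of_mem_erase hs
      have hs2 := Finset.mem_of_mem_erase hs
      have hsP : s ∈ pr k A := by
        unfold pr
        rw [Finset.mem_filter]
        refine ⟨hs2, ?_⟩
        intro i hi
        by_cases hiI : i = I
        · rw [hiI, f3]
        · by_contra h5
          have h6 : i ∈ (sp k A).erase I :=
            Finset.mem_erase.2 ⟨hiI, mem_sp'.2 ⟨by have := (mem_sp'.1 hs2).1; omega, by omega⟩⟩
          have := hss i h6
          omega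
      have h5 : ({I, s} : Finset ℕ) ⊆ pr k A := by
        intro j hj
        rw [Finset.mem_insert, Finset.mem_singleton] at hj
        rcases hj with hj | hj
        · rw [hj]; exact hIP
        · rw [hj]; exact hsP
      have h6 := Finset.card_le_card h5
      rw [Finset.card_pair (Ne.symm hs1)] at h6
      exact h6
    have hsub : tr 2 (pr k A) ⊆ Finset.range (k + 1) := tr_sub.trans pr_sub_range
    have hcd : (tr 2 (pr k A)).card = 2 := tr_card hcard2
    obtain ⟨l, hl, hll⟩ := exists_max (P := tr 2 (pr k A)) (Finset.card_pos.1 (by omega))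
    have hIt : I ∈ tr 2 (pr k A) := min_mem_tr hIP hPI (by omega)
    obtain ⟨p, hp, hpp, hTp⟩ := two_eq hl hll (by omega)
    have hpI : p = I := by
      have h1 := hpp I hIt
      have h2 := hPI p (tr_sub hp)
      omega
    rw [hpI] at hTp
    have hIl : I ≠ l := by
      intro h
      rw [hTp, h] at hcd
      simp at hcd
    have hlk : l ≤ k := by
      have := Finset.mem_range.1 (hsub hl)
      omega
    have hIl' : I < l := by
      have := hll I hIt
      omega
    have e1 : R.R k A (rp (tr 2 (pr k A)) l (deg k A)) :=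
      desc hoca h3 (le_refl 2) k (deg k A) ((pr k A).card - 2) A (by omega) rfl
        (fun m hm _ hm2 => C1 m hm (hne m (by omega)) (Or.inl (by omega))) _
        (deg_rp hsub hl (by omega)) (pr_rp hsub hl hll)
    have e2 : R.R k A (fun j => (if j = I then 1 else 0) +
        (if j = l then deg k A - 1 else 0)) := by
      refine R.ext (fun _ _ => rfl) ?_ e1
      intro j _
      rw [hTp]
      exact rp_pair hIl hdA j
    have e3 := push2 (k := k) hIl'.le hlk hA
    refine rule _ (R.trans e2 (R.symm e3)) (by rw [deg_two hI hlk]; omega) (hnF _) ?_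
    rintro ⟨_, _, g, _⟩
    dsimp only at g
    rw [if_pos rfl, ite_self] at g
    omega
  have hc : 2 ≤ c := by omega
  have hdc : c + 1 ≤ deg k A := by omega
  have hsub : tr c (pr k A) ⊆ Finset.range (k + 1) := tr_sub.trans pr_sub_range
  have hcd : (tr c (pr k A)).card = c := tr_card hcP
  obtain ⟨x, hx, hxx⟩ := exists_max (P := tr c (pr k A)) (Finset.card_pos.1 (by omega))
  have hIt : I ∈ tr c (pr k A) := min_mem_tr hIP hPI hc1
  have hrX : R.R k A (rp (tr c (pr k A)) x (deg k A)) :=
    desc hoca h3 hc k (deg k A) ((pr k A).card - c) A (by omega) rfl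
      (fun m hm hm1 hm2 => C1 m hm (hne m hm1) (Or.inl (by omega))) _
      (deg_rp hsub hx (by omega)) (pr_rp hsub hx hxx)
  have hdX : deg k (rp (tr c (pr k A)) x (deg k A)) = deg k A := deg_rp hsub hx (by omega)
  by_cases hQX : B q0 ≠ 0 ∧ q0 ∈ tr c (pr k A)
  · refine rule _ hrX hdX (hnF _) ?_
    rintro ⟨_, g, _⟩
    rcases g q0 hq0k (by omega) with h | h
    · exact rp_ne_zero hQX.2 h
    · exact hBq0 h
  have hq0X : q0 ∉ tr c (pr k A) := fun h => hQX ⟨hBq0, h⟩
  by_cases hqx : x < q0
  · have hj : ∀ y ∈ tr c (pr k A), y < q0 := fun y hy => lt_of_le_of_lt (hxx y hy) hqx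
    have hsub' : insert q0 (tr c (pr k A)) ⊆ Finset.range (k + 1) := by
      intro y hy
      rcases Finset.mem_insert.1 hy with h | h
      · rw [h, Finset.mem_range]
        omega
      · exact hsub h
    have hcd' : (insert q0 (tr c (pr k A))).card = c + 1 := by
      rw [Finset.card_insert_of_notMem hq0X, hcd]
    have hins := Finset.mem_insert_self q0 (tr c (pr k A))
    have hmx : ∀ y ∈ insert q0 (tr c (pr k A)), y ≤ q0 := by
      intro y hy
      rcases Finset.mem_insert.1 hy with h | h
      · omega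
      · exact (hj y h).le
    have hdC : deg k (rp (insert q0 (tr c (pr k A))) q0 (deg k A)) = deg k A :=
      deg_rp hsub' hins (by omega)
    have hpC : pr k (rp (insert q0 (tr c (pr k A))) q0 (deg k A)) =
        insert q0 (tr c (pr k A)) := pr_rp hsub' hins hmx
    have hJ := C1 (c + 1) (by omega) (hne (c + 1) (by omega)) hN k
      (rp (insert q0 (tr c (pr k A))) q0 (deg k A)) (rp (tr c (pr k A)) x (deg k A)) hdC hdX
      (by rw [hpC, hcd']) (by
        rw [hpC, pr_rp hsub hx hxx, Nat.add_sub_cancel]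
        have h1 := tr_insert (X := tr c (pr k A)) (j := q0) hj
        rw [hcd] at h1
        exact h1.symm)
    refine rule _ (R.trans hrX (R.symm hJ)) hdC (hnF _) ?_
    rintro ⟨_, g, _⟩
    rcases g q0 hq0k (by omega) with h | h
    · exact rp_ne_zero hins h
    · exact hBq0 h
  · have hqx' : q0 < x := by
      rcases Nat.lt_or_ge q0 x with h | h
      · exact h
      · exfalso
        have : q0 = x := by omega
        rw [this] at hq0X
        exact hq0X hx
    exact hv c x q0 hc he hcP hcP' hdc hx hxx hIt hq0 hqx' hBq0 f4 hrX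

end Pool.Agent.MVO.H67
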